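import Mathlib

open MeasureTheory Set
open scoped Pointwise ENNReal

namespace Pool.Agent.Lib.MP_6d4359_pr

/-- One-dimensional Brunn-Minkowski for nonempty compact sets. -/
lemma vol_add_compact {A B : Set ℝ} (hA : IsCompact A) (hB : IsCompact B)
    (hAn : A.Nonempty) (hBn : B.Nonempty) :
    volume A + volume B ≤ volume (A + B) := by
  have haA : sSup A ∈ A := hA.sSup_mem hAn
  have hbB : sInf B ∈ B := hB.sInf_mem hBn
  set a := sSup A
  set b := sInf B
  have h1 : (fun x => x + b) '' A ⊆ A + B := by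
    rintro _ ⟨x, hx, rfl⟩
    exact Set.add_mem_add hx hbB
  have h2 : (fun x => a + x) '' B ⊆ A + B := by
    rintro _ ⟨x, hx, rfl⟩
    exact Set.add_mem_add haA hx
  have hv1 : volume ((fun x => x + b) '' A) = volume A := by
    rw [Set.image_add_right, measure_preimage_add_right]
  have hv2 : volume ((fun x => a + x) '' B) = volume B := by
    rw [Set.image_add_left, measure_preimage_add]
  have hm2 : MeasurableSet ((fun x => a + x) '' B) :=
    (hB.image (continuous_const.add continuous_id)).measurableSet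
  have hdis : AEDisjoint volume ((fun x => x + b) '' A) ((fun x => a + x) '' B) := by
    have hsub : ((fun x => x + b) '' A) ∩ ((fun x => a + x) '' B) ⊆ {a + b} := by
      rintro y ⟨⟨x, hx, rfl⟩, ⟨z, hz, hzx⟩⟩
      have hxa : x ≤ a := le_csSup hA.bddAbove hx
      have hbz : b ≤ z := csInf_le hB.bddBelow hz
      simp only at hzx
      simp only [mem_singleton_iff]
      linarith
    exact measure_mono_null hsub (by simp)
  calc volume A + volume B = volume ((fun x => x + b) '' A) + volume ((fun x => a + x) '' B) := by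
        rw [hv1, hv2]
    _ = volume (((fun x => x + b) '' A) ∪ ((fun x => a + x) '' B)) := by
        rw [measure_union₀ hm2.nullMeasurableSet hdis]
    _ ≤ volume (A + B) := measure_mono (union_subset h1 h2)

/-- One-dimensional Brunn-Minkowski for nonempty measurable sets, weighted form. -/
lemma bm_one {A B : Set ℝ} (hA : MeasurableSet A) (hB : MeasurableSet B)
    (hAn : A.Nonempty) (hBn : B.Nonempty) {l m : ℝ} (hl : 0 < l) (hm : 0 < m) :
    ENNReal.ofReal l * volume A + ENNReal.ofReal m * volume B ≤ volume (l • A + m • B) := by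
  have key : ∀ K ⊆ A, IsCompact K → ∀ L ⊆ B, IsCompact L →
      ENNReal.ofReal l * volume K + ENNReal.ofReal m * volume L ≤ volume (l • A + m • B) := by
    intro K hKA hK L hLB hL
    obtain ⟨x, hx⟩ := hAn
    obtain ⟨y, hy⟩ := hBn
    have hK' : IsCompact (insert x K) := hK.insert x
    have hL' : IsCompact (insert y L) := hL.insert y
    have h := vol_add_compact (hK'.smul l) (hL'.smul m)
      ((Set.insert_nonempty x K).smul_set) ((Set.insert_nonempty y L).smul_set)
    rw [Measure.addHaar_smul_of_nonneg _ hl.le, Measure.addHaar_smul_of_nonneg _ hm.le] at h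
    simp only [Module.finrank_self, pow_one] at h
    calc ENNReal.ofReal l * volume K + ENNReal.ofReal m * volume L
        ≤ ENNReal.ofReal l * volume (insert x K) + ENNReal.ofReal m * volume (insert y L) := by
          gcongr
          · exact Set.subset_insert _ _
          · exact Set.subset_insert _ _
      _ ≤ volume (l • insert x K + m • insert y L) := h
      _ ≤ volume (l • A + m • B) := by
          apply measure_mono
          apply Set.add_subset_add
          · exact Set.smul_set_mono (Set.insert_subset hx hKA)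
          · exact Set.smul_set_mono (Set.insert_subset hy hLB)
  rw [hA.measure_eq_iSup_isCompact (μ := volume), hB.measure_eq_iSup_isCompact (μ := volume)]
  simp only [ENNReal.mul_iSup, iSup_and']
  exact ENNReal.biSup_add_biSup_le' ⟨∅, empty_subset _, isCompact_empty⟩
    ⟨∅, empty_subset _, isCompact_empty⟩ (fun K hK L hL => key K hK.1 hK.2 L hL.1 hL.2)

lemma amgm (I J : ℝ≥0∞) {l m : ℝ} (hl : 0 < l) (hm : 0 < m) (hlm : l + m = 1) :
    I ^ l * J ^ m ≤ ENNReal.ofReal l * I + ENNReal.ofReal m * J := by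
  rcases eq_or_ne I ⊤ with hI | hI
  · rw [hI, ENNReal.mul_top (by simpa using hl), top_add]
    exact le_top
  rcases eq_or_ne J ⊤ with hJ | hJ
  · rw [hJ, ENNReal.mul_top (by simpa using hm), add_top]
    exact le_top
  lift I to NNReal using hI
  lift J to NNReal using hJ
  have := NNReal.geom_mean_le_arith_mean2_weighted l.toNNReal m.toNNReal I J (by
    rw [← Real.toNNReal_add hl.le hm.le, hlm, Real.toNNReal_one])
  rw [Real.coe_toNNReal _ hl.le, Real.coe_toNNReal _ hm.le] at this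
  rw [← ENNReal.coe_rpow_of_nonneg _ hl.le, ← ENNReal.coe_rpow_of_nonneg _ hm.le,
    ENNReal.ofReal, ENNReal.ofReal]
  exact_mod_cast this

/-- One-dimensional Prekopa-Leindler for bounded functions. -/
lemma pl_one {a b c : ℝ → ℝ} (ha : Measurable a) (hb : Measurable b) (hc : Measurable c)
    (ha0 : ∀ x, 0 ≤ a x) (hb0 : ∀ x, 0 ≤ b x) (hc0 : ∀ x, 0 ≤ c x)
    (haB : BddAbove (range a)) (hbB : BddAbove (range b))
    {l m : ℝ} (hl : 0 < l) (hm : 0 < m) (hlm : l + m = 1)
    (h : ∀ x y, (a x) ^ l * (b y) ^ m ≤ c (l * x + m * y)) :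
    (∫⁻ x, ENNReal.ofReal (a x)) ^ l * (∫⁻ x, ENNReal.ofReal (b x)) ^ m
      ≤ ∫⁻ x, ENNReal.ofReal (c x) := by
  set α := sSup (range a) with hα
  set β := sSup (range b) with hβ
  have haα : ∀ x, a x ≤ α := fun x => le_csSup haB ⟨x, rfl⟩
  have hbβ : ∀ x, b x ≤ β := fun x => le_csSup hbB ⟨x, rfl⟩
  have hα0 : 0 ≤ α := (ha0 0).trans (haα 0)
  have hβ0 : 0 ≤ β := (hb0 0).trans (hbβ 0)
  rcases hα0.eq_or_lt with hα1 | hα1
  · have : ∀ x, a x = 0 := fun x => le_antisymm (hα1 ▸ haα x) (ha0 x)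
    simp [this, ENNReal.zero_rpow_of_pos hl]
  rcases hβ0.eq_or_lt with hβ1 | hβ1
  · have : ∀ x, b x = 0 := fun x => le_antisymm (hβ1 ▸ hbβ x) (hb0 x)
    simp [this, ENNReal.zero_rpow_of_pos hm]
  set γ := α ^ l * β ^ m with hγ
  have hγ0 : 0 < γ := by positivity
  -- layer cake for a function bounded by its sup
  have scale : ∀ (g : ℝ → ℝ) (M : ℝ), 0 < M → Measurable g → (∀ x, 0 ≤ g x) →
      ∫⁻ x, ENNReal.ofReal (g x)
        = ENNReal.ofReal M * ∫⁻ r in Ioi 0, volume {x | r * M < g x} := by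
    intro g M hM hg hg0
    have e1 : ∀ x, ENNReal.ofReal (g x) = ENNReal.ofReal M * ENNReal.ofReal (g x / M) := by
      intro x
      rw [← ENNReal.ofReal_mul hM.le, mul_div_cancel₀ _ hM.ne']
    simp_rw [e1]
    rw [lintegral_const_mul _ (hg.div_const M).ennreal_ofReal,
      lintegral_eq_lintegral_meas_lt volume (Filter.Eventually.of_forall
        (fun x => div_nonneg (hg0 x) hM.le)) (hg.div_const M).aemeasurable]
    congr 1
    refine lintegral_congr (fun r => ?_)
    congr 1
    ext x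
    exact lt_div_iff₀ hM
  have layer : ∀ (g : ℝ → ℝ) (M : ℝ), 0 < M → Measurable g → (∀ x, 0 ≤ g x) →
      (∀ x, g x ≤ M) → ∫⁻ x, ENNReal.ofReal (g x)
        = ENNReal.ofReal M * ∫⁻ r in Ioo 0 1, volume {x | r * M < g x} := by
    intro g M hM hg hg0 hgM
    rw [scale g M hM hg hg0]
    congr 1
    rw [← Ioo_union_Ici_eq_Ioi (zero_lt_one' ℝ), lintegral_union measurableSet_Ici]
    · have : ∫⁻ r in Ici (1:ℝ), volume {x | r * M < g x} = 0 := by
        rw [setLIntegral_congr_fun (g := fun _ => 0) measurableSet_Ici]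
        · simp
        · intro r hr
          have : {x | r * M < g x} = ∅ := by
            ext x
            simp only [Set.mem_ofPred_eq, mem_empty_iff_false, iff_false, not_lt]
            have h1 : (1:ℝ) ≤ r := hr
            nlinarith [hgM x]
          simp [this]
      rw [this, add_zero]
    · rw [Set.disjoint_left]
      intro x hx hx'
      exact absurd hx.2 (not_lt.mpr hx')
  have layer' : ENNReal.ofReal γ * ∫⁻ r in Ioo 0 1, volume {x | r * γ < c x}
      ≤ ∫⁻ x, ENNReal.ofReal (c x) := by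
    rw [scale c γ hγ0 hc hc0]
    exact mul_le_mul' le_rfl (lintegral_mono_set Ioo_subset_Ioi_self)
  have hset : ∀ r ∈ Ioo (0:ℝ) 1, ENNReal.ofReal l * volume {x | r * α < a x}
      + ENNReal.ofReal m * volume {x | r * β < b x} ≤ volume {x | r * γ < c x} := by
    intro r hr
    have h1 : {x | r * α < a x}.Nonempty := by
      have : r * α < α := by nlinarith [hr.2]
      obtain ⟨_, ⟨x, rfl⟩, hx⟩ := exists_lt_of_lt_csSup (range_nonempty a) this
      exact ⟨x, hx⟩
    have h2 : {x | r * β < b x}.Nonempty := by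
      have : r * β < β := by nlinarith [hr.2]
      obtain ⟨_, ⟨x, rfl⟩, hx⟩ := exists_lt_of_lt_csSup (range_nonempty b) this
      exact ⟨x, hx⟩
    refine (bm_one (measurableSet_lt measurable_const ha) (measurableSet_lt measurable_const hb)
      h1 h2 hl hm).trans (measure_mono ?_)
    rintro _ ⟨_, ⟨x, hx, rfl⟩, _, ⟨y, hy, rfl⟩, rfl⟩
    simp only [Set.mem_ofPred_eq, smul_eq_mul] at hx hy ⊢
    refine lt_of_lt_of_le ?_ (h x y)
    have hr0 := hr.1
    have e : r * γ = (r * α) ^ l * (r * β) ^ m := by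
      rw [Real.mul_rpow hr0.le hα1.le, Real.mul_rpow hr0.le hβ1.le]
      have : r = r ^ l * r ^ m := by rw [← Real.rpow_add hr0, hlm, Real.rpow_one]
      rw [hγ]
      nth_rewrite 1 [this]
      ring
    rw [e]
    exact mul_lt_mul'' (Real.rpow_lt_rpow (by positivity) hx hl)
      (Real.rpow_lt_rpow (by positivity) hy hm) (by positivity) (by positivity)
  rw [layer a α hα1 ha ha0 haα, layer b β hβ1 hb hb0 hbβ]
  refine le_trans ?_ layer'
  set I := ∫⁻ r in Ioo 0 1, volume {x | r * α < a x}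
  set J := ∫⁻ r in Ioo 0 1, volume {x | r * β < b x}
  have hIJ : ENNReal.ofReal l * I + ENNReal.ofReal m * J
      ≤ ∫⁻ r in Ioo 0 1, volume {x | r * γ < c x} := by
    have hanti : ∀ (g : ℝ → ℝ) (M : ℝ), 0 < M → Measurable (fun r => volume {x | r * M < g x}) := by
      intro g M hM
      refine Antitone.measurable (fun r r' hrr' => measure_mono (fun x hx => ?_))
      simp only [Set.mem_ofPred_eq] at hx ⊢
      nlinarith
    rw [← lintegral_const_mul _ (hanti a α hα1), ← lintegral_const_mul _ (hanti b β hβ1),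
      ← lintegral_add_left ((hanti a α hα1).const_mul _)]
    exact setLIntegral_mono' measurableSet_Ioo hset
  have hamgm : I ^ l * J ^ m ≤ ENNReal.ofReal l * I + ENNReal.ofReal m * J :=
    amgm I J hl hm hlm
  rw [ENNReal.mul_rpow_of_nonneg _ _ hl.le, ENNReal.mul_rpow_of_nonneg _ _ hm.le]
  have hγe : ENNReal.ofReal γ = ENNReal.ofReal α ^ l * ENNReal.ofReal β ^ m := by
    rw [hγ, ENNReal.ofReal_mul (by positivity), ENNReal.ofReal_rpow_of_pos hα1,
      ENNReal.ofReal_rpow_of_pos hβ1]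
  calc ENNReal.ofReal α ^ l * I ^ l * (ENNReal.ofReal β ^ m * J ^ m)
      = ENNReal.ofReal γ * (I ^ l * J ^ m) := by rw [hγe]; ring
    _ ≤ ENNReal.ofReal γ * ∫⁻ r in Ioo 0 1, volume {x | r * γ < c x} :=
      mul_le_mul' le_rfl (hamgm.trans hIJ)

/-- Multiplicative Brunn-Minkowski in the plane for compact sets. -/
lemma bm_two_compact {A B : Set (ℝ × ℝ)} (hA : IsCompact A) (hB : IsCompact B)
    {l m : ℝ} (hl : 0 < l) (hm : 0 < m) (hlm : l + m = 1) :
    volume A ^ l * volume B ^ m ≤ volume (l • A + m • B) := by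
  set C := l • A + m • B with hCdef
  have hC : IsCompact C := (hA.smul l).add (hB.smul m)
  have fin : ∀ {S : Set (ℝ × ℝ)}, IsCompact S → ∀ y : ℝ,
      volume ((fun x : ℝ => (x, y)) ⁻¹' S) ≤ volume (Prod.fst '' S) := by
    intro S _ y
    refine measure_mono (fun x hx => ⟨(x, y), hx, rfl⟩)
  have fintop : ∀ {S : Set (ℝ × ℝ)}, IsCompact S → volume (Prod.fst '' S) ≠ ⊤ :=
    fun hS => (hS.image continuous_fst).measure_lt_top.ne
  have sectop : ∀ {S : Set (ℝ × ℝ)}, IsCompact S → ∀ y : ℝ,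
      volume ((fun x : ℝ => (x, y)) ⁻¹' S) ≠ ⊤ :=
    fun hS y => ne_top_of_le_ne_top (fintop hS) (fin hS y)
  have meas : ∀ {S : Set (ℝ × ℝ)}, IsCompact S →
      Measurable (fun y : ℝ => (volume ((fun x : ℝ => (x, y)) ⁻¹' S)).toReal) :=
    fun hS => (measurable_measure_prodMk_right hS.measurableSet).ennreal_toReal
  have vol : ∀ {S : Set (ℝ × ℝ)}, IsCompact S →
      volume S = ∫⁻ y : ℝ, ENNReal.ofReal (volume ((fun x : ℝ => (x, y)) ⁻¹' S)).toReal := by
    intro S hS
    rw [Measure.volume_eq_prod, Measure.prod_apply_symm hS.measurableSet]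
    exact lintegral_congr (fun y => (ENNReal.ofReal_toReal (sectop hS y)).symm)
  have bdd : ∀ {S : Set (ℝ × ℝ)}, IsCompact S →
      BddAbove (range (fun y : ℝ => (volume ((fun x : ℝ => (x, y)) ⁻¹' S)).toReal)) := by
    intro S hS
    refine ⟨(volume (Prod.fst '' S)).toReal, ?_⟩
    rintro _ ⟨y, rfl⟩
    exact ENNReal.toReal_mono (fintop hS) (fin hS y)
  rw [vol hA, vol hB, vol hC]
  refine pl_one (meas hA) (meas hB) (meas hC) (fun _ => ENNReal.toReal_nonneg)
    (fun _ => ENNReal.toReal_nonneg) (fun _ => ENNReal.toReal_nonneg) (bdd hA) (bdd hB)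
    hl hm hlm (fun y z => ?_)
  rcases Set.eq_empty_or_nonempty ((fun x : ℝ => (x, y)) ⁻¹' A) with hAe | hAn
  · simp only [hAe, measure_empty, ENNReal.toReal_zero]
    rw [Real.zero_rpow hl.ne', zero_mul]
    exact ENNReal.toReal_nonneg
  rcases Set.eq_empty_or_nonempty ((fun x : ℝ => (x, z)) ⁻¹' B) with hBe | hBn
  · simp only [hBe, measure_empty, ENNReal.toReal_zero]
    rw [Real.zero_rpow hm.ne', mul_zero]
    exact ENNReal.toReal_nonneg
  have hcont : ∀ y : ℝ, Continuous (fun x : ℝ => (x, y)) := fun y =>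
    continuous_id.prodMk continuous_const
  have h1 := bm_one ((hcont y).measurable hA.measurableSet) ((hcont z).measurable hB.measurableSet)
    hAn hBn hl hm
  have h2 : l • ((fun x : ℝ => (x, y)) ⁻¹' A) + m • ((fun x : ℝ => (x, z)) ⁻¹' B)
      ⊆ (fun x : ℝ => (x, l * y + m * z)) ⁻¹' C := by
    rintro _ ⟨_, ⟨x, hx, rfl⟩, _, ⟨x', hx', rfl⟩, rfl⟩
    refine ⟨l • (x, y), ⟨_, hx, rfl⟩, m • (x', z), ⟨_, hx', rfl⟩, ?_⟩
    simp
  have h3 := ((amgm _ _ hl hm hlm).trans h1).trans (measure_mono h2)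
  have h4 := ENNReal.toReal_mono (sectop hC _) h3
  rwa [ENNReal.toReal_mul, ← ENNReal.toReal_rpow, ← ENNReal.toReal_rpow] at h4

/-- Multiplicative Brunn-Minkowski in the plane for measurable sets. -/
lemma bm_two {A B : Set (ℝ × ℝ)} (hA : MeasurableSet A) (hB : MeasurableSet B)
    {l m : ℝ} (hl : 0 < l) (hm : 0 < m) (hlm : l + m = 1) :
    volume A ^ l * volume B ^ m ≤ volume (l • A + m • B) := by
  have e : ∀ {S : Set (ℝ × ℝ)}, MeasurableSet S → ∀ {r : ℝ}, 0 < r →
      volume S ^ r = ⨆ (K : Set (ℝ × ℝ)) (_ : K ⊆ S ∧ IsCompact K), volume K ^ r := by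
    intro S hS r hr
    rw [hS.measure_eq_iSup_isCompact]
    simp only [iSup_and']
    exact (ENNReal.orderIsoRpow r hr).map_iSup₂ _
  rw [e hA hl, e hB hm]
  simp only [ENNReal.iSup_mul, ENNReal.mul_iSup]
  refine iSup_le (fun K => iSup_le (fun hK => iSup_le (fun L => iSup_le (fun hL => ?_))))
  refine (bm_two_compact hL.2 hK.2 hl hm hlm).trans (measure_mono ?_)
  exact Set.add_subset_add (Set.smul_set_mono hL.1) (Set.smul_set_mono hK.1)

/-- Multiplicative Brunn-Minkowski on `Fin 2 → ℝ` for measurable sets. -/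
lemma bm_fin_two {A B : Set (Fin 2 → ℝ)} (hA : MeasurableSet A) (hB : MeasurableSet B)
    {l m : ℝ} (hl : 0 < l) (hm : 0 < m) (hlm : l + m = 1) :
    volume A ^ l * volume B ^ m ≤ volume (l • A + m • B) := by
  have hmp := volume_preserving_finTwoArrow ℝ
  have h : ∀ S : Set (Fin 2 → ℝ), volume S = volume (MeasurableEquiv.finTwoArrow (α := ℝ) '' S) := by
    intro S
    rw [MeasurableEquiv.image_eq_preimage_symm]
    exact ((hmp.symm _).measure_preimage_equiv S).symm
  have hlin : MeasurableEquiv.finTwoArrow (α := ℝ) '' (l • A + m • B)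
      = l • (MeasurableEquiv.finTwoArrow (α := ℝ) '' A)
        + m • (MeasurableEquiv.finTwoArrow (α := ℝ) '' B) := by
    ext z
    constructor
    · rintro ⟨_, ⟨_, ⟨a, ha, rfl⟩, _, ⟨b, hb, rfl⟩, rfl⟩, rfl⟩
      exact ⟨_, ⟨_, ⟨a, ha, rfl⟩, rfl⟩, _, ⟨_, ⟨b, hb, rfl⟩, rfl⟩, rfl⟩
    · rintro ⟨_, ⟨_, ⟨a, ha, rfl⟩, rfl⟩, _, ⟨_, ⟨b, hb, rfl⟩, rfl⟩, rfl⟩
      exact ⟨_, ⟨_, ⟨a, ha, rfl⟩, _, ⟨b, hb, rfl⟩, rfl⟩, rfl⟩
  rw [h A, h B, h (l • A + m • B), hlin]
  exact bm_two ((MeasurableEquiv.measurableSet_image _).2 hA)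
    ((MeasurableEquiv.measurableSet_image _).2 hB) hl hm hlm

end Pool.Agent.Lib.MP_6d4359_pr
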