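import Mathlib

open MeasureTheory Set intervalIntegral

namespace Pool.Agent.Lib.MP_6d4359_pr

/-- `e^{-iv²}`. -/
noncomputable def chirp (v : ℝ) : ℂ := Complex.exp (-(Complex.I * ((v ^ 2 : ℝ) : ℂ)))

lemma chirp_cont : Continuous chirp := by unfold chirp; fun_prop

lemma chirp_eq (v : ℝ) : chirp v = Complex.exp (Complex.I * ((-(v ^ 2) : ℝ) : ℂ)) := by
  unfold chirp
  congr 1
  push_cast; ring

lemma norm_chirp (v : ℝ) : ‖chirp v‖ = 1 := by
  rw [chirp_eq, Complex.norm_exp_I_mul_ofReal]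

lemma chirp_neg (v : ℝ) : chirp (-v) = chirp v := by simp [chirp]

/-- Fresnel primitive. -/
noncomputable def G (h : ℝ) : ℂ := ∫ v in (0:ℝ)..h, chirp v

lemma G_sub (a b : ℝ) : ∫ v in a..b, chirp v = G b - G a := by
  unfold G
  rw [integral_interval_sub_left] <;> exact chirp_cont.intervalIntegrable _ _

lemma G_cont : Continuous G := by
  unfold G
  exact intervalIntegral.continuous_primitive (fun a b => chirp_cont.intervalIntegrable a b) 0

lemma G_neg (h : ℝ) : G (-h) = - G h := by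
  unfold G
  have := intervalIntegral.integral_comp_neg (f := chirp) (a := 0) (b := h)
  simp only [chirp_neg, neg_zero] at this
  rw [this, intervalIntegral.integral_symm (-h) 0]

lemma norm_chirp_sub_one (v : ℝ) : ‖chirp v - 1‖ ≤ v ^ 2 := by
  rw [chirp_eq]
  refine (Real.norm_exp_I_mul_ofReal_sub_one_le).trans ?_
  simp

lemma G_approx {h : ℝ} (hh : |h| ≤ 1) : ‖G h - h‖ ≤ 1 / 3 := by
  have e : G h - h = ∫ v in (0:ℝ)..h, (chirp v - 1) := by
    rw [intervalIntegral.integral_sub (chirp_cont.intervalIntegrable _ _)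
      (continuous_const.intervalIntegrable _ _)]
    simp [G]
  rw [e]
  have := intervalIntegral.norm_integral_le_abs_of_norm_le (f := fun v => chirp v - 1)
    (g := fun v => v ^ 2) (a := 0) (b := h) (μ := volume)
    (Filter.Eventually.of_forall (fun v => norm_chirp_sub_one v))
    ((continuous_pow 2).intervalIntegrable _ _)
  refine this.trans ?_
  rw [integral_pow]
  have : |h ^ 3| ≤ 1 := by
    rw [abs_pow]
    exact pow_le_one₀ (abs_nonneg h) hh
  rw [abs_le] at this ⊢
  norm_num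
  constructor <;> linarith [this.1, this.2]

/-- Tail bound for the Fresnel integral. -/
lemma fresnel_tail {a b : ℝ} (ha : 0 < a) (hab : a ≤ b) : ‖G b - G a‖ ≤ 1 / a := by
  have hb : 0 < b := ha.trans_le hab
  set P : ℝ → ℂ := fun v => Complex.I * chirp v * (2 * (v : ℂ))⁻¹ with hP
  set Q : ℝ → ℂ := fun v => Complex.I * chirp v * (2 * (v : ℂ) ^ 2)⁻¹ with hQ
  have hpos : ∀ v ∈ uIcc a b, 0 < v := by
    intro v hv
    rw [uIcc_of_le hab] at hv
    exact ha.trans_le hv.1
  have hne : ∀ v ∈ uIcc a b, (v : ℂ) ≠ 0 := fun v hv => by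
    exact_mod_cast (hpos v hv).ne'
  have hQc : ContinuousOn Q (uIcc a b) := by
    refine ContinuousOn.mul (by have := chirp_cont; fun_prop) (ContinuousOn.inv₀ (by fun_prop) ?_)
    intro v hv
    have := hne v hv
    simp [this]
  have hderiv : ∀ v ∈ uIcc a b, HasDerivAt P (chirp v - Q v) v := by
    intro v hv
    have hv0 := hne v hv
    have h0 : HasDerivAt (fun x : ℝ => (x : ℂ)) 1 v := Complex.ofRealCLM.hasDerivAt
    have h1 : HasDerivAt chirp (chirp v * (-(Complex.I * (2 * v)))) v := by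
      have : chirp = fun x : ℝ => Complex.exp (-(Complex.I * ((x : ℂ) ^ 2))) := by
        ext x; simp [chirp]
      rw [this]
      have h2 : HasDerivAt (fun x : ℝ => -(Complex.I * ((x : ℂ) ^ 2))) (-(Complex.I * (2 * v))) v := by
        have := ((h0.fun_pow 2).const_mul Complex.I).fun_neg
        simpa using this
      exact h2.cexp
    have h3 : HasDerivAt (fun x : ℝ => (2 * (x : ℂ))⁻¹) (-(2 * 1) / (2 * (v : ℂ)) ^ 2) v :=
      (h0.const_mul 2).fun_inv (by simpa using hv0)
    have h4 := (h1.const_mul Complex.I).fun_mul h3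
    refine h4.congr_deriv ?_
    rw [hQ]
    field_simp
    ring_nf
    rw [Complex.I_sq]
    ring
  have e1 : ∫ v in a..b, (chirp v - Q v) = P b - P a :=
    intervalIntegral.integral_eq_sub_of_hasDerivAt hderiv
      ((chirp_cont.continuousOn.sub hQc).intervalIntegrable)
  rw [intervalIntegral.integral_sub (chirp_cont.intervalIntegrable _ _) hQc.intervalIntegrable,
    G_sub] at e1
  have e2 : G b - G a = P b - P a + ∫ v in a..b, Q v := by rw [← e1]; ring
  have nP : ∀ v : ℝ, 0 < v → ‖P v‖ = 1 / (2 * v) := by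
    intro v hv
    simp only [hP, norm_mul, Complex.norm_I, norm_chirp, norm_inv]
    rw [Complex.norm_real, Real.norm_of_nonneg hv.le]
    simp
  have nQ : ‖∫ v in a..b, Q v‖ ≤ (1 / a - 1 / b) / 2 := by
    have h5 : ‖∫ v in a..b, Q v‖ ≤ ∫ v in a..b, (2 * v ^ 2)⁻¹ := by
      refine intervalIntegral.norm_integral_le_of_norm_le hab ?_ ?_
      · refine Filter.Eventually.of_forall (fun v hv => ?_)
        simp only [hQ, norm_mul, Complex.norm_I, norm_chirp, norm_inv, norm_pow]
        rw [Complex.norm_real, Real.norm_eq_abs, sq_abs]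
        simp
      · refine ContinuousOn.intervalIntegrable ?_
        refine ContinuousOn.inv₀ (by fun_prop) ?_
        intro v hv
        have := hpos v hv
        positivity
    refine h5.trans (le_of_eq ?_)
    have h6 : ∀ v ∈ uIcc a b, HasDerivAt (fun x : ℝ => -(2 * x)⁻¹) ((2 * v ^ 2)⁻¹) v := by
      intro v hv
      have hv0 := (hpos v hv).ne'
      have := (((hasDerivAt_id' v).const_mul 2).fun_inv (by simpa using hv0)).fun_neg
      refine this.congr_deriv ?_
      field_simp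
    rw [intervalIntegral.integral_eq_sub_of_hasDerivAt h6]
    · field_simp
      ring
    · refine ContinuousOn.intervalIntegrable ?_
      refine ContinuousOn.inv₀ (by fun_prop) ?_
      intro v hv
      have := hpos v hv
      positivity
  rw [e2]
  calc ‖P b - P a + ∫ v in a..b, Q v‖ ≤ ‖P b - P a‖ + ‖∫ v in a..b, Q v‖ := norm_add_le _ _
    _ ≤ (‖P b‖ + ‖P a‖) + (1 / a - 1 / b) / 2 := add_le_add (norm_sub_le _ _) nQ
    _ = 1 / a := by
      rw [nP a ha, nP b hb]
      field_simp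
      ring

/-- The character `e^{-iNs}`. -/
noncomputable def ch (N : ℕ) (s : ℝ) : ℂ := Complex.exp (-(Complex.I * ((N * s : ℝ) : ℂ)))

lemma ch_cont (N : ℕ) : Continuous (ch N) := by unfold ch; fun_prop

lemma norm_ch (N : ℕ) (s : ℝ) : ‖ch N s‖ = 1 := by
  have : ch N s = Complex.exp (Complex.I * ((-(N * s) : ℝ) : ℂ)) := by
    unfold ch
    congr 1
    push_cast; ring
  rw [this, Complex.norm_exp_I_mul_ofReal]

lemma integral_exp_period {c : ℤ} (hc : c ≠ 0) :
    ∫ s in (0:ℝ)..(2 * Real.pi), Complex.exp ((Complex.I * c) * s) = 0 := by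
  have hc' : Complex.I * (c : ℂ) ≠ 0 := mul_ne_zero Complex.I_ne_zero (by exact_mod_cast hc)
  rw [integral_exp_mul_complex hc']
  have : Complex.exp (Complex.I * c * ((2 * Real.pi : ℝ) : ℂ)) = 1 := by
    rw [Complex.exp_eq_one_iff]
    refine ⟨c, ?_⟩
    push_cast
    ring
  rw [this]
  simp

lemma integral_ch {N : ℕ} (hN : N ≠ 0) : ∫ s in (0:ℝ)..(2 * Real.pi), ch N s = 0 := by
  have := integral_exp_period (c := -(N : ℤ)) (by simpa using hN)
  rw [← this]
  congr 1
  ext s
  unfold ch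
  congr 1
  push_cast
  ring

lemma integral_ch_cos {N : ℕ} (hN : N ≠ 0) :
    ∫ s in (0:ℝ)..(2 * Real.pi), ch N s * (Real.cos (N * s) : ℂ) = Real.pi := by
  have h := integral_exp_period (c := -(2 * N : ℤ)) (by simpa using hN)
  have e : ∀ s : ℝ, ch N s * (Real.cos (N * s) : ℂ)
      = 1 / 2 + 1 / 2 * Complex.exp ((Complex.I * (-(2 * N : ℤ) : ℤ)) * s) := by
    intro s
    rw [Complex.ofReal_cos, Complex.cos, ch]
    have h1 : (-(Complex.I * ((N * s : ℝ) : ℂ))) = -(Complex.I * (N * s)) := by push_cast; ring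
    have h2 : ((N * s : ℝ) : ℂ) * Complex.I = Complex.I * (N * s) := by push_cast; ring
    have h3 : -((N * s : ℝ) : ℂ) * Complex.I = -(Complex.I * (N * s)) := by push_cast; ring
    have h4 : (Complex.I * (-(2 * N : ℤ) : ℤ)) * (s : ℂ)
      = -(Complex.I * (N * s)) + -(Complex.I * (N * s)) := by push_cast; ring
    rw [h1, h2, h3, h4, Complex.exp_add]
    have h5 : Complex.exp (-(Complex.I * (N * s))) * Complex.exp (Complex.I * (N * s)) = 1 := by
      rw [← Complex.exp_add]; simp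
    linear_combination (1 / 2 : ℂ) * h5
  simp_rw [e]
  rw [intervalIntegral.integral_add, intervalIntegral.integral_const_mul, h]
  · simp only [intervalIntegral.integral_const, sub_zero, mul_zero, add_zero]
    rw [Complex.real_smul]
    push_cast
    ring
  · exact continuous_const.intervalIntegrable _ _
  · exact (by fun_prop : Continuous _).intervalIntegrable _ _

/-- Main lower bound for the oscillatory integral. -/
lemma osc_main {N : ℕ} (hN : 4 ≤ N) :
    1 / 2 ≤ ‖∫ s in (0:ℝ)..(2 * Real.pi), ch N s *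
      (G ((N:ℝ) ^ 2 * (4 * Real.pi ^ 2 + 1 - s ^ 2)) + G (Real.cos (N * s)))‖ := by
  have hN0 : N ≠ 0 := by omega
  have hNr : (4:ℝ) ≤ N := by exact_mod_cast hN
  have hpi := Real.pi_pos
  have c1 : Continuous fun s : ℝ => G ((N:ℝ) ^ 2 * (4 * Real.pi ^ 2 + 1 - s ^ 2)) :=
    G_cont.comp (by fun_prop)
  have c2 : Continuous fun s : ℝ => G (Real.cos (N * s)) := G_cont.comp (by fun_prop)
  have c3 : Continuous fun s : ℝ => ((Real.cos (N * s) : ℝ) : ℂ) := by fun_prop
  have hch := ch_cont N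
  set g0 := G ((N:ℝ) ^ 2) with hg0
  have split : ∫ s in (0:ℝ)..(2 * Real.pi), ch N s *
      (G ((N:ℝ) ^ 2 * (4 * Real.pi ^ 2 + 1 - s ^ 2)) + G (Real.cos (N * s)))
      = (∫ s in (0:ℝ)..(2 * Real.pi), ch N s *
          (G ((N:ℝ) ^ 2 * (4 * Real.pi ^ 2 + 1 - s ^ 2)) - g0))
        + (∫ s in (0:ℝ)..(2 * Real.pi), ch N s * (G (Real.cos (N * s)) - (Real.cos (N * s) : ℂ)))
        + Real.pi := by
    have e1 : ∀ s : ℝ, ch N s *
        (G ((N:ℝ) ^ 2 * (4 * Real.pi ^ 2 + 1 - s ^ 2)) + G (Real.cos (N * s)))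
        = ((ch N s * (G ((N:ℝ) ^ 2 * (4 * Real.pi ^ 2 + 1 - s ^ 2)) - g0))
          + (ch N s * (G (Real.cos (N * s)) - (Real.cos (N * s) : ℂ))))
          + (ch N s * (Real.cos (N * s) : ℂ) + ch N s * g0) := by
      intro s; ring
    simp_rw [e1]
    rw [intervalIntegral.integral_add, intervalIntegral.integral_add,
      intervalIntegral.integral_add, integral_ch_cos hN0, intervalIntegral.integral_mul_const,
      integral_ch hN0]
    · simp
    all_goals exact (by fun_prop : Continuous _).intervalIntegrable _ _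
  have b1 : ‖∫ s in (0:ℝ)..(2 * Real.pi), ch N s *
      (G ((N:ℝ) ^ 2 * (4 * Real.pi ^ 2 + 1 - s ^ 2)) - g0)‖ ≤ 1 / 16 * |2 * Real.pi - 0| := by
    refine intervalIntegral.norm_integral_le_of_norm_le_const (fun s hs => ?_)
    rw [uIoc_of_le (by positivity)] at hs
    rw [norm_mul, norm_ch, one_mul]
    have hs2 : s ^ 2 ≤ 4 * Real.pi ^ 2 := by
      have := hs.1; have := hs.2; nlinarith
    have h1 : (N:ℝ) ^ 2 ≤ (N:ℝ) ^ 2 * (4 * Real.pi ^ 2 + 1 - s ^ 2) := by
      have : (0:ℝ) ≤ (N:ℝ)^2 := by positivity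
      nlinarith
    refine (fresnel_tail (by positivity) h1).trans ?_
    apply one_div_le_one_div_of_le (by norm_num)
    nlinarith
  have b2 : ‖∫ s in (0:ℝ)..(2 * Real.pi), ch N s * (G (Real.cos (N * s)) - (Real.cos (N * s) : ℂ))‖
      ≤ 1 / 3 * |2 * Real.pi - 0| := by
    refine intervalIntegral.norm_integral_le_of_norm_le_const (fun s hs => ?_)
    rw [norm_mul, norm_ch, one_mul]
    exact G_approx (Real.abs_cos_le_one _)
  rw [split]
  rw [sub_zero, abs_of_pos (by positivity)] at b1 b2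
  have h := norm_sub_norm_le ((Real.pi : ℝ) : ℂ) (-((∫ s in (0:ℝ)..(2 * Real.pi), ch N s *
          (G ((N:ℝ) ^ 2 * (4 * Real.pi ^ 2 + 1 - s ^ 2)) - g0))
        + (∫ s in (0:ℝ)..(2 * Real.pi), ch N s * (G (Real.cos (N * s)) - (Real.cos (N * s) : ℂ)))))
  rw [sub_neg_eq_add, norm_neg, Complex.norm_real, Real.norm_of_nonneg hpi.le] at h
  rw [add_comm _ ((Real.pi : ℝ) : ℂ)]
  refine le_trans ?_ h
  have h2 := norm_add_le (∫ s in (0:ℝ)..(2 * Real.pi), ch N s *
          (G ((N:ℝ) ^ 2 * (4 * Real.pi ^ 2 + 1 - s ^ 2)) - g0))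
    (∫ s in (0:ℝ)..(2 * Real.pi), ch N s * (G (Real.cos (N * s)) - (Real.cos (N * s) : ℂ)))
  have := Real.pi_gt_three
  linarith

end Pool.Agent.Lib.MP_6d4359_pr
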