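import Mathlib
import Pool.Agent.Lib.MP_6d4359_pr.Fresnel

open MeasureTheory Set
open scoped ENNReal

namespace Pool.Agent.Lib.MP_6d4359_pr

/-- Lower boundary of the body. -/
noncomputable def U (N : ℕ) (s : ℝ) : ℝ := s ^ 2 - Real.cos (N * s) / (N:ℝ) ^ 2

lemma U_cont (N : ℕ) : Continuous (U N) := by unfold U; fun_prop

lemma U_hasDeriv {N : ℕ} (hN : N ≠ 0) (s : ℝ) :
    HasDerivAt (U N) (2 * s + Real.sin (N * s) / N) s := by
  have h1 : HasDerivAt (fun s : ℝ => s ^ 2) (2 * s) s := by simpa using hasDerivAt_pow 2 s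
  have h2 : HasDerivAt (fun s : ℝ => (N:ℝ) * s) N s := by
    simpa using (hasDerivAt_id' s).const_mul (N:ℝ)
  have h3 := (h2.cos.div_const ((N:ℝ) ^ 2))
  have h4 := h1.fun_sub h3
  have hNr : (N:ℝ) ≠ 0 := by exact_mod_cast hN
  refine h4.congr_deriv ?_
  field_simp
  ring

lemma U_convex {N : ℕ} (hN : N ≠ 0) : ConvexOn ℝ univ (U N) := by
  have hNr : (0:ℝ) < N := by positivity
  refine Monotone.convexOn_univ_of_deriv (fun s => (U_hasDeriv hN s).differentiableAt) ?_
  have hd : deriv (U N) = fun s => 2 * s + Real.sin (N * s) / N :=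
    funext fun s => (U_hasDeriv hN s).deriv
  rw [hd]
  intro s s' hss
  simp only
  have h1 : |Real.sin (N * s) - Real.sin (N * s')| ≤ |N * s - N * s'| := by
    have := Real.lipschitzWith_sin.dist_le_mul (N * s) (N * s')
    simpa [Real.dist_eq] using this
  have h2 : |N * s - N * s'| = N * (s' - s) := by
    rw [abs_of_nonpos (by nlinarith)]
    ring
  rw [h2] at h1
  have h3 := (abs_le.1 h1).2
  have h4 : Real.sin (N * s) / N - Real.sin (N * s') / N ≤ s' - s := by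
    rw [← sub_div, div_le_iff₀ hNr]
    linarith
  linarith

lemma U_le {N : ℕ} (hN : N ≠ 0) (s : ℝ) : U N s ≤ s ^ 2 + 1 := by
  have hNr : (1:ℝ) ≤ (N:ℝ) ^ 2 := by
    have : (1:ℝ) ≤ N := by exact_mod_cast Nat.one_le_iff_ne_zero.2 hN
    nlinarith
  unfold U
  have h1 := Real.neg_one_le_cos (N * s)
  have : -(1:ℝ) ≤ Real.cos (N * s) / (N:ℝ) ^ 2 := by
    rw [le_div_iff₀ (by positivity)]
    nlinarith
  linarith

lemma le_U {N : ℕ} (hN : N ≠ 0) (s : ℝ) : s ^ 2 - 1 ≤ U N s := by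
  have hNr : (1:ℝ) ≤ (N:ℝ) ^ 2 := by
    have : (1:ℝ) ≤ N := by exact_mod_cast Nat.one_le_iff_ne_zero.2 hN
    nlinarith
  unfold U
  have h1 := Real.cos_le_one (N * s)
  have : Real.cos (N * s) / (N:ℝ) ^ 2 ≤ 1 := by
    rw [div_le_iff₀ (by positivity)]
    nlinarith
  linarith

/-- The convex body. -/
def K (N : ℕ) : Set (Fin 2 → ℝ) :=
  {p | 0 ≤ p 1 ∧ p 1 ≤ 2 * Real.pi ∧ U N (p 1) ≤ p 0 ∧ p 0 ≤ 4 * Real.pi ^ 2 + 1}

lemma K_closed (N : ℕ) : IsClosed (K N) := by
  unfold K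
  have := U_cont N
  exact IsClosed.and (isClosed_le continuous_const (by fun_prop)) (IsClosed.and
    (isClosed_le (by fun_prop) continuous_const) (IsClosed.and
    (isClosed_le (by fun_prop) (by fun_prop)) (isClosed_le (by fun_prop) continuous_const)))

lemma K_meas (N : ℕ) : MeasurableSet (K N) := (K_closed N).measurableSet

lemma K_convex {N : ℕ} (hN : N ≠ 0) : Convex ℝ (K N) := by
  intro p hp q hq a b ha hb hab
  obtain ⟨p1, p2, p3, p4⟩ := hp
  obtain ⟨q1, q2, q3, q4⟩ := hq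
  have hU := (U_convex hN).2 (mem_univ (p 1)) (mem_univ (q 1)) ha hb hab
  simp only [smul_eq_mul] at hU
  have hb' : b = 1 - a := by linarith
  refine ⟨?_, ?_, ?_, ?_⟩
  · simp only [Pi.add_apply, Pi.smul_apply, smul_eq_mul]; positivity
  · simp only [Pi.add_apply, Pi.smul_apply, smul_eq_mul]; subst hb'; nlinarith
  · simp only [Pi.add_apply, Pi.smul_apply, smul_eq_mul]
    refine hU.trans ?_
    nlinarith
  · simp only [Pi.add_apply, Pi.smul_apply, smul_eq_mul]; subst hb'; nlinarith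

lemma one_le_vol_K {N : ℕ} (hN : N ≠ 0) : 1 ≤ volume (K N) := by
  have hsub : Icc (![2, 0] : Fin 2 → ℝ) ![3, 1] ⊆ K N := by
    intro p hp
    have h0 := hp.1 0
    have h1 := hp.1 1
    have h2 := hp.2 0
    have h3 := hp.2 1
    simp at h0 h1 h2 h3
    have := U_le hN (p 1)
    have hpi := Real.pi_gt_three
    refine ⟨h1, by linarith, ?_, ?_⟩ <;> nlinarith
  have hv : volume (Icc (![2, 0] : Fin 2 → ℝ) ![3, 1]) = 1 := by
    rw [Real.volume_Icc_pi]
    simp
    norm_num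
  rw [← hv]
  exact measure_mono hsub

lemma vol_K_le {N : ℕ} (hN : N ≠ 0) : volume (K N) ≤ ENNReal.ofReal 300 := by
  have hsub : K N ⊆ Icc (![-1, 0] : Fin 2 → ℝ) ![4 * Real.pi ^ 2 + 1, 2 * Real.pi] := by
    rintro p ⟨p1, p2, p3, p4⟩
    have := le_U hN (p 1)
    constructor
    · intro i
      fin_cases i
      · simp only [Fin.zero_eta, Matrix.cons_val_zero]
        nlinarith [sq_nonneg (p 1)]
      · simpa using p1
    · intro i
      fin_cases i
      · simpa using p4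
      · simpa using p2
  refine (measure_mono hsub).trans ?_
  rw [Real.volume_Icc_pi]
  simp only [Fin.prod_univ_two, Matrix.cons_val_zero, Matrix.cons_val_one]
  rw [← ENNReal.ofReal_mul (by nlinarith [Real.pi_pos])]
  apply ENNReal.ofReal_le_ofReal
  have := Real.pi_lt_d2
  have := Real.pi_pos
  have h2 : Real.pi ^ 2 ≤ 3.15 ^ 2 := by nlinarith
  norm_num at h2 ⊢
  nlinarith

/-- The body in product coordinates. -/
def K2 (N : ℕ) : Set (ℝ × ℝ) :=
  {z | 0 ≤ z.2 ∧ z.2 ≤ 2 * Real.pi ∧ U N z.2 ≤ z.1 ∧ z.1 ≤ 4 * Real.pi ^ 2 + 1}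

lemma K2_closed (N : ℕ) : IsClosed (K2 N) := by
  unfold K2
  have := U_cont N
  exact IsClosed.and (isClosed_le continuous_const (by fun_prop)) (IsClosed.and
    (isClosed_le (by fun_prop) continuous_const) (IsClosed.and
    (isClosed_le (by fun_prop) (by fun_prop)) (isClosed_le (by fun_prop) continuous_const)))

lemma K_eq (N : ℕ) : K N = MeasurableEquiv.finTwoArrow (α := ℝ) ⁻¹' K2 N := rfl

/-- The model integrand. -/
noncomputable def h0 (N : ℕ) (z : ℝ × ℝ) : ℂ :=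
  chirp ((N:ℝ) ^ 2 * (z.1 - z.2 ^ 2)) * ch N z.2

lemma h0_cont (N : ℕ) : Continuous (h0 N) := by
  unfold h0
  have := chirp_cont
  have := ch_cont N
  fun_prop

lemma vol_K2_lt_top {N : ℕ} (hN : N ≠ 0) : volume (K2 N) < ⊤ := by
  have h := (volume_preserving_finTwoArrow ℝ).measure_preimage_equiv (K2 N)
  rw [← h]
  exact (vol_K_le hN).trans_lt ENNReal.ofReal_lt_top

lemma norm_h0 (N : ℕ) (z : ℝ × ℝ) : ‖h0 N z‖ = 1 := by
  unfold h0
  rw [norm_mul, norm_chirp, norm_ch, one_mul]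

lemma inner_integral {N : ℕ} (hN : N ≠ 0) (s : ℝ) :
    ∫ x in (U N s)..(4 * Real.pi ^ 2 + 1), h0 N (x, s)
      = ((N:ℂ) ^ 2)⁻¹ * (ch N s *
      (G ((N:ℝ) ^ 2 * (4 * Real.pi ^ 2 + 1 - s ^ 2)) + G (Real.cos (N * s)))) := by
  have hNr : (N:ℝ) ≠ 0 := by exact_mod_cast hN
  have e1 : ∀ x : ℝ, h0 N (x, s) = chirp ((N:ℝ) ^ 2 * x - (N:ℝ) ^ 2 * s ^ 2) * ch N s := by
    intro x
    simp only [h0]
    rw [mul_sub]
  simp_rw [e1]
  rw [intervalIntegral.integral_mul_const, intervalIntegral.integral_comp_mul_sub chirp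
    (pow_ne_zero 2 hNr), G_sub]
  have e2 : (N:ℝ) ^ 2 * U N s - (N:ℝ) ^ 2 * s ^ 2 = - Real.cos (N * s) := by
    unfold U
    field_simp
    ring
  have e3 : (N:ℝ) ^ 2 * (4 * Real.pi ^ 2 + 1) - (N:ℝ) ^ 2 * s ^ 2
      = (N:ℝ) ^ 2 * (4 * Real.pi ^ 2 + 1 - s ^ 2) := by ring
  rw [e2, e3, G_neg, sub_neg_eq_add, Complex.real_smul]
  push_cast
  ring

lemma integral_K2 {N : ℕ} (hN : N ≠ 0) :
    ∫ z in K2 N, h0 N z = ((N:ℂ) ^ 2)⁻¹ * ∫ s in (0:ℝ)..(2 * Real.pi), ch N s *
      (G ((N:ℝ) ^ 2 * (4 * Real.pi ^ 2 + 1 - s ^ 2)) + G (Real.cos (N * s))) := by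
  have hint : Integrable ((K2 N).indicator (h0 N)) (volume.prod volume) := by
    rw [← Measure.volume_eq_prod, integrable_indicator_iff (K2_closed N).measurableSet]
    refine Measure.integrableOn_of_bounded (M := 1) (vol_K2_lt_top hN).ne
      (h0_cont N).aestronglyMeasurable ?_
    exact Filter.Eventually.of_forall (fun z => (norm_h0 N z).le)
  rw [← integral_indicator (K2_closed N).measurableSet, Measure.volume_eq_prod,
    integral_prod_symm _ hint, ← intervalIntegral.integral_const_mul,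
    intervalIntegral.integral_of_le (by positivity), ← integral_Icc_eq_integral_Ioc,
    ← integral_indicator measurableSet_Icc]
  refine integral_congr_ae (Filter.Eventually.of_forall (fun s => ?_))
  simp only
  by_cases hs : s ∈ Icc 0 (2 * Real.pi)
  · rw [indicator_of_mem hs, ← inner_integral hN s]
    have hUR : U N s ≤ 4 * Real.pi ^ 2 + 1 := by
      refine (U_le hN s).trans ?_
      have := hs.1; have := hs.2
      nlinarith
    rw [intervalIntegral.integral_of_le hUR, ← integral_Icc_eq_integral_Ioc,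
      ← integral_indicator measurableSet_Icc]
    refine integral_congr_ae (Filter.Eventually.of_forall (fun x => ?_))
    simp only
    by_cases hx : x ∈ Icc (U N s) (4 * Real.pi ^ 2 + 1)
    · rw [indicator_of_mem hx, indicator_of_mem]
      exact ⟨hs.1, hs.2, hx.1, hx.2⟩
    · rw [indicator_of_notMem hx, indicator_of_notMem]
      exact fun h => hx ⟨h.2.2.1, h.2.2.2⟩
  · rw [indicator_of_notMem hs]
    have : ∀ x : ℝ, (K2 N).indicator (h0 N) (x, s) = 0 := fun x =>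
      indicator_of_notMem (fun h => hs ⟨h.1, h.2.1⟩) _
    simp [this]

lemma integral_K {N : ℕ} (hN : 4 ≤ N) :
    1 / (2 * (N:ℝ) ^ 2) ≤ ‖∫ p in K N, h0 N (p 0, p 1)‖ := by
  have hN0 : N ≠ 0 := by omega
  have e : ∫ p in K N, h0 N (p 0, p 1) = ∫ z in K2 N, h0 N z :=
    (volume_preserving_finTwoArrow ℝ).setIntegral_preimage_emb
      (MeasurableEquiv.finTwoArrow (α := ℝ)).measurableEmbedding (h0 N) (K2 N)
  rw [e, integral_K2 hN0, norm_mul, norm_inv, norm_pow, Complex.norm_natCast]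
  have := osc_main hN
  have hpos : (0:ℝ) < (N:ℝ) ^ 2 := by positivity
  rw [one_div, mul_inv, mul_comm (2:ℝ)⁻¹]
  refine mul_le_mul_of_nonneg_left ?_ (by positivity)
  linarith

end Pool.Agent.Lib.MP_6d4359_pr
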