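import Mathlib

open MeasureTheory Set
open scoped ENNReal

namespace Pool.Agent.Lib.MP_6d4359_pr

lemma vol_sq_band (b : ℝ) {e : ℝ} (he : 0 ≤ e) :
    volume {w : ℝ | b ≤ w ^ 2 ∧ w ^ 2 ≤ b + e} ≤ ENNReal.ofReal (2 * √e) := by
  have hsub : {w : ℝ | b ≤ w ^ 2 ∧ w ^ 2 ≤ b + e} ⊆
      Icc (√b) (√(b + e)) ∪ Icc (-√(b + e)) (-√b) := by
    intro w hw
    obtain ⟨h1, h2⟩ := hw
    have h3 : √b ≤ |w| := Real.sqrt_le_iff.2 ⟨abs_nonneg w, by rwa [sq_abs]⟩
    have h4 : |w| ≤ √(b + e) := Real.abs_le_sqrt h2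
    rcases le_total 0 w with hw0 | hw0
    · left
      rw [abs_of_nonneg hw0] at h3 h4
      exact ⟨h3, h4⟩
    · right
      rw [abs_of_nonpos hw0] at h3 h4
      exact ⟨by linarith, by linarith⟩
  have hlen : √(b + e) - √b ≤ √e := by
    rcases le_total 0 b with hb | hb
    · have h5 := Real.sqrt_nonneg b
      have h6 := Real.sqrt_nonneg e
      have : √(b + e) ≤ √b + √e := by
        rw [Real.sqrt_le_left (by linarith)]
        nlinarith [Real.sq_sqrt hb, Real.sq_sqrt he, mul_nonneg h5 h6]
      linarith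
    · rw [Real.sqrt_eq_zero_of_nonpos hb, sub_zero]
      exact Real.sqrt_le_sqrt (by linarith)
  calc volume {w : ℝ | b ≤ w ^ 2 ∧ w ^ 2 ≤ b + e}
      ≤ volume (Icc (√b) (√(b + e)) ∪ Icc (-√(b + e)) (-√b)) := measure_mono hsub
    _ ≤ volume (Icc (√b) (√(b + e))) + volume (Icc (-√(b + e)) (-√b)) := measure_union_le _ _
    _ = ENNReal.ofReal (√(b + e) - √b) + ENNReal.ofReal (√(b + e) - √b) := by
        rw [Real.volume_Icc, Real.volume_Icc]
        congr 2
        ring
    _ ≤ ENNReal.ofReal (√e) + ENNReal.ofReal (√e) := by gcongr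
    _ = ENNReal.ofReal (2 * √e) := by
        rw [← ENNReal.ofReal_add (Real.sqrt_nonneg _) (Real.sqrt_nonneg _)]
        congr 1
        ring

/-- The set where the model polynomial is within `e` of `b`. -/
def T (r : ℝ → ℝ) (b e : ℝ) : Set (ℝ × ℝ) :=
  {z | 0 ≤ z.2 ∧ z.2 ≤ 2 * Real.pi ∧ |(z.1 - z.2 ^ 2) ^ 2 + r z.2 - b| ≤ e}

lemma T_meas {r : ℝ → ℝ} (hr : Continuous r) (b e : ℝ) : MeasurableSet (T r b e) := by
  refine IsClosed.measurableSet ?_
  unfold T
  refine IsClosed.and (isClosed_le continuous_const continuous_snd) (IsClosed.and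
    (isClosed_le continuous_snd continuous_const) (isClosed_le ?_ continuous_const))
  fun_prop

/-- Sheared version. -/
def T' (r : ℝ → ℝ) (b e : ℝ) : Set (ℝ × ℝ) :=
  {z | 0 ≤ z.2 ∧ z.2 ≤ 2 * Real.pi ∧ |z.1 ^ 2 + r z.2 - b| ≤ e}

lemma T'_meas {r : ℝ → ℝ} (hr : Continuous r) (b e : ℝ) : MeasurableSet (T' r b e) := by
  refine IsClosed.measurableSet ?_
  unfold T'
  refine IsClosed.and (isClosed_le continuous_const continuous_snd) (IsClosed.and
    (isClosed_le continuous_snd continuous_const) (isClosed_le ?_ continuous_const))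
  fun_prop

lemma vol_T_eq {r : ℝ → ℝ} (hr : Continuous r) (b e : ℝ) :
    volume (T r b e) = volume (T' r b e) := by
  rw [Measure.volume_eq_prod, Measure.prod_apply_symm (T_meas hr b e),
    Measure.prod_apply_symm (T'_meas hr b e)]
  refine lintegral_congr (fun s => ?_)
  have : (fun x : ℝ => (x, s)) ⁻¹' T r b e
      = (fun x : ℝ => x - s ^ 2) ⁻¹' ((fun x : ℝ => (x, s)) ⁻¹' T' r b e) := rfl
  rw [this]
  simp_rw [sub_eq_add_neg]
  exact measure_preimage_add_right volume (-(s ^ 2)) _

lemma vol_T_le_one {r : ℝ → ℝ} (hr : Continuous r) (b : ℝ) {e : ℝ} (he : 0 ≤ e) :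
    volume (T r b e) ≤ ENNReal.ofReal (2 * √(2 * e) * (2 * Real.pi)) := by
  rw [vol_T_eq hr, Measure.volume_eq_prod, Measure.prod_apply_symm (T'_meas hr b e)]
  calc ∫⁻ s, volume ((fun x : ℝ => (x, s)) ⁻¹' T' r b e)
      ≤ ∫⁻ s, (Icc 0 (2 * Real.pi)).indicator (fun _ => ENNReal.ofReal (2 * √(2 * e))) s := by
        refine lintegral_mono (fun s => ?_)
        by_cases hs : s ∈ Icc 0 (2 * Real.pi)
        · rw [indicator_of_mem hs]
          refine le_trans (measure_mono ?_) (vol_sq_band (b - r s - e) (by linarith : 0 ≤ 2 * e))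
          intro x hx
          have := abs_le.1 hx.2.2
          simp only at this
          constructor <;> linarith [this.1, this.2]
        · rw [indicator_of_notMem hs]
          have : (fun x : ℝ => (x, s)) ⁻¹' T' r b e = ∅ := by
            ext x
            simp only [mem_preimage, mem_empty_iff_false, iff_false]
            exact fun h => hs ⟨h.1, h.2.1⟩
          simp [this]
    _ = ENNReal.ofReal (2 * √(2 * e) * (2 * Real.pi)) := by
        rw [lintegral_indicator measurableSet_Icc, setLIntegral_const, Real.volume_Icc, sub_zero,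
          ← ENNReal.ofReal_mul (by positivity)]

lemma vol_T_le_two {r : ℝ → ℝ} (hr : Continuous r) (b : ℝ) {e δ L : ℝ} (he : 0 ≤ e) (hδ : 0 < δ)
    (hL : 0 ≤ L)
    (hinc : ∀ s s', 0 ≤ s → s ≤ s' → s' ≤ 2 * Real.pi → δ * (s' - s) ≤ r s' - r s)
    (h0 : ∀ s, 0 ≤ s → s ≤ 2 * Real.pi → 0 ≤ r s) (h1 : ∀ s, 0 ≤ s → s ≤ 2 * Real.pi → r s ≤ L) :
    volume (T r b e) ≤ ENNReal.ofReal (2 * e / δ * (2 * √(L + 2 * e))) := by
  rw [vol_T_eq hr, Measure.volume_eq_prod, Measure.prod_apply (T'_meas hr b e)]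
  set W := {w : ℝ | b - L - e ≤ w ^ 2 ∧ w ^ 2 ≤ b - L - e + (L + 2 * e)} with hW
  have hWm : MeasurableSet W := by
    refine IsClosed.measurableSet ?_
    rw [hW]
    exact IsClosed.and (isClosed_le continuous_const (by fun_prop))
      (isClosed_le (by fun_prop) continuous_const)
  calc ∫⁻ w, volume (Prod.mk w ⁻¹' T' r b e)
      ≤ ∫⁻ w, W.indicator (fun _ => ENNReal.ofReal (2 * e / δ)) w := by
        refine lintegral_mono (fun w => ?_)
        by_cases hw : w ∈ W
        · rw [indicator_of_mem hw]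
          refine (Real.volume_le_diam _).trans ?_
          refine Metric.ediam_le ?_
          intro s hs s' hs'
          rw [edist_dist]
          refine ENNReal.ofReal_le_ofReal ?_
          rw [le_div_iff₀ hδ, Real.dist_eq]
          have a1 := abs_le.1 hs.2.2
          have a2 := abs_le.1 hs'.2.2
          simp only at a1 a2
          rcases le_total s s' with h | h
          · have := hinc s s' hs.1 h hs'.2.1
            rw [abs_of_nonpos (by linarith)]
            nlinarith [a1.1, a1.2, a2.1, a2.2]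
          · have := hinc s' s hs'.1 h hs.2.1
            rw [abs_of_nonneg (by linarith)]
            nlinarith [a1.1, a1.2, a2.1, a2.2]
        · rw [indicator_of_notMem hw]
          have : Prod.mk w ⁻¹' T' r b e = ∅ := by
            ext s
            simp only [mem_preimage, mem_empty_iff_false, iff_false]
            intro h
            apply hw
            have a1 := abs_le.1 h.2.2
            simp only at a1
            have a2 := h0 s h.1 h.2.1
            have a3 := h1 s h.1 h.2.1
            constructor <;> linarith [a1.1, a1.2]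
          simp [this]
    _ = ENNReal.ofReal (2 * e / δ) * volume W := by
        rw [lintegral_indicator hWm, setLIntegral_const]
    _ ≤ ENNReal.ofReal (2 * e / δ) * ENNReal.ofReal (2 * √(L + 2 * e)) := by
        gcongr
        exact vol_sq_band _ (by linarith)
    _ = ENNReal.ofReal (2 * e / δ * (2 * √(L + 2 * e))) := by
        rw [← ENNReal.ofReal_mul (by positivity)]

end Pool.Agent.Lib.MP_6d4359_pr
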